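import Mathlib

/-!
# HV-RSa: a decoupling lemma

For a finite set `A` of primes, weights `w θ p ≥ 0` and a bounded function `F` of the totals `v θ = ∑ ind p`: the sum over the assignments `e : A → Option Θ` (each `p` goes to at most one `θ`)
is compared with the product of the independent sums (`p` may go to several `θ`). The difference is at most `M` times the difference of the total weights.

PROOF. `e ↦ (T_θ = {p : e p = some θ})` is injective into the families `T : Θ → powerset A`; the sum over all families is the product of the independent sums; the total weights are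
`∏ ∏ (1 + w θ p)` and `∏ (1 + ∑ w θ p)`.
-/

open Finset

set_option autoImplicit false

namespace Pool.Agent.Helper47.HV

/-- the sum of the weights of the subsets of `A` with total `n` -/
noncomputable def sD (A : Finset ℕ) (ind : ℕ → ℕ) (u : ℕ → ℝ) (n : ℕ) : ℝ :=
  ∑ S ∈ A.powerset.filter (fun S => ∑ p ∈ S, ind p = n), ∏ p ∈ S, u p

/-- the family of an assignment -/
private noncomputable def fam47 {Θ : Type} [DecidableEq Θ] (A : Finset ℕ) (e : A → Option Θ) (θ : Θ) : Finset ℕ :=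
  ((Finset.univ : Finset A).filter (fun p => e p = some θ)).map (Function.Embedding.subtype _)

private theorem mem_fam47 {Θ : Type} [DecidableEq Θ] {A : Finset ℕ} {e : A → Option Θ} {θ : Θ} (p : A) : (p : ℕ) ∈ fam47 A e θ ↔ e p = some θ := by
  unfold fam47
  rw [Finset.mem_map]
  constructor
  · rintro ⟨q, hq, h⟩
    have : q = p := Subtype.ext h
    rw [← this]
    exact (Finset.mem_filter.1 hq).2
  · intro h
    exact ⟨p, Finset.mem_filter.2 ⟨Finset.mem_univ _, h⟩, rfl⟩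

private theorem fam_sub47 {Θ : Type} [DecidableEq Θ] {A : Finset ℕ} {e : A → Option Θ} {θ : Θ} : fam47 A e θ ⊆ A := by
  intro p hp
  unfold fam47 at hp
  obtain ⟨q, -, h⟩ := Finset.mem_map.1 hp
  rw [← h]
  exact q.2

private theorem fam_inj47 {Θ : Type} [DecidableEq Θ] (A : Finset ℕ) : Function.Injective (fam47 (Θ := Θ) A) := by
  intro e e' h
  funext p
  refine Option.ext fun θ => ?_
  have h1 := congrFun h θ
  have h2 : (p : ℕ) ∈ fam47 A e θ ↔ (p : ℕ) ∈ fam47 A e' θ := by rw [h1]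
  rwa [mem_fam47, mem_fam47] at h2

private theorem fam_prod47 {Θ : Type} [Fintype Θ] [DecidableEq Θ] (A : Finset ℕ) (w : Θ → ℕ → ℝ) (e : A → Option Θ) :
    ∏ θ, ∏ p ∈ fam47 A e θ, w θ p = ∏ p : A, (e p).elim 1 (fun θ => w θ p) := by
  have h1 : ∀ θ, ∏ p ∈ fam47 A e θ, w θ p = ∏ p : A, if e p = some θ then w θ p else 1 := by
    intro θ
    unfold fam47
    rw [Finset.prod_map, Finset.prod_filter]
    rfl
  rw [Finset.prod_congr rfl fun θ _ => h1 θ, Finset.prod_comm]
  refine Finset.prod_congr rfl fun p _ => ?_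
  cases hp : e p with
  | none => simp
  | some θ₀ =>
    simp only [Option.some.injEq, Option.elim_some]
    rw [Finset.prod_ite_eq]
    simp

private theorem fam_sum47 {Θ : Type} [DecidableEq Θ] (A : Finset ℕ) (ind : ℕ → ℕ) (e : A → Option Θ) (θ : Θ) :
    ∑ p ∈ fam47 A e θ, ind p = ∑ p : A, if e p = some θ then ind p else 0 := by
  unfold fam47
  rw [Finset.sum_map, Finset.sum_filter]
  rfl

/-- RSa: decoupling -/
theorem decouple {Θ : Type} [Fintype Θ] [DecidableEq Θ] (A : Finset ℕ) (ind : ℕ → ℕ) (w : Θ → ℕ → ℝ) (hw : ∀ θ, ∀ p ∈ A, 0 ≤ w θ p)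
    (F : (Θ → ℕ) → ℝ) {M : ℝ} (hF : ∀ v, |F v| ≤ M) {K : ℕ} (hK : ∀ v, (∃ θ, K ≤ v θ) → F v = 0) :
    |∑ e : A → Option Θ, (∏ p : A, (e p).elim 1 (fun θ => w θ p)) * F (fun θ => ∑ p : A, if e p = some θ then ind p else 0) -
      ∑ v ∈ Fintype.piFinset (fun _ : Θ => Finset.range K), F v * ∏ θ, sD A ind (w θ) (v θ)| ≤
        M * (∏ θ, ∏ p ∈ A, (1 + w θ p) - ∏ p ∈ A, (1 + ∑ θ, w θ p)) := by
  classical
  -- the families
  set P : Finset (Θ → Finset ℕ) := Fintype.piFinset (fun _ : Θ => A.powerset) with hP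
  set W : (Θ → Finset ℕ) → ℝ := fun T => ∏ θ, ∏ p ∈ T θ, w θ p with hW
  set V : (Θ → Finset ℕ) → Θ → ℕ := fun T θ => ∑ p ∈ T θ, ind p with hV
  have hW0 : ∀ T ∈ P, 0 ≤ W T := by
    intro T hT
    refine Finset.prod_nonneg fun θ _ => Finset.prod_nonneg fun p hp => hw θ p ?_
    exact Finset.mem_powerset.1 (Fintype.mem_piFinset.1 hT θ) hp
  -- the independent sums
  have e1 : ∑ v ∈ Fintype.piFinset (fun _ : Θ => Finset.range K), F v * ∏ θ, sD A ind (w θ) (v θ) = ∑ T ∈ P, W T * F (V T) := by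
    have h1 : ∀ v : Θ → ℕ, F v * ∏ θ, sD A ind (w θ) (v θ) = ∑ T ∈ P.filter (fun T => V T = v), W T * F (V T) := by
      intro v
      unfold sD
      rw [Finset.prod_univ_sum, Finset.mul_sum]
      have h2 : Fintype.piFinset (fun θ => A.powerset.filter (fun S => ∑ p ∈ S, ind p = v θ)) = P.filter (fun T => V T = v) := by
        ext T
        rw [Fintype.mem_piFinset, Finset.mem_filter, hP, Fintype.mem_piFinset]
        constructor
        · intro h
          exact ⟨fun θ => (Finset.mem_filter.1 (h θ)).1, funext fun θ => (Finset.mem_filter.1 (h θ)).2⟩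
        · rintro ⟨h, h'⟩ θ
          exact Finset.mem_filter.2 ⟨h θ, congrFun h' θ⟩
      rw [h2]
      refine Finset.sum_congr rfl fun T hT => ?_
      rw [(Finset.mem_filter.1 hT).2, mul_comm]
    rw [Finset.sum_congr rfl fun v _ => h1 v]
    have h3 : ∑ T ∈ P, W T * F (V T) = ∑ T ∈ P.filter (fun T => V T ∈ Fintype.piFinset (fun _ : Θ => Finset.range K)), W T * F (V T) := by
      rw [Finset.sum_filter]
      refine Finset.sum_congr rfl fun T _ => ?_
      split_ifs with h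
      · rfl
      · rw [Fintype.mem_piFinset] at h
        push Not at h
        obtain ⟨θ, hθ⟩ := h
        rw [hK (V T) ⟨θ, by simpa using hθ⟩, mul_zero]
    rw [h3, ← Finset.sum_fiberwise_of_maps_to (g := V) (t := Fintype.piFinset (fun _ : Θ => Finset.range K)) (fun T hT => (Finset.mem_filter.1 hT).2)]
    refine Finset.sum_congr rfl fun v hv => Finset.sum_congr ?_ fun _ _ => rfl
    ext T
    simp only [Finset.mem_filter]
    constructor
    · rintro ⟨h, h'⟩
      exact ⟨⟨h, by rw [h']; exact hv⟩, h'⟩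
    · rintro ⟨⟨h, -⟩, h'⟩
      exact ⟨h, h'⟩
  -- the assignments
  have himg : (Finset.univ : Finset (A → Option Θ)).image (fam47 A) ⊆ P := by
    intro T hT
    obtain ⟨e, -, h⟩ := Finset.mem_image.1 hT
    rw [hP, Fintype.mem_piFinset, ← h]
    exact fun θ => Finset.mem_powerset.2 fam_sub47
  have e2 : ∀ G : (Θ → ℕ) → ℝ, ∑ e : A → Option Θ, (∏ p : A, (e p).elim 1 (fun θ => w θ p)) * G (fun θ => ∑ p : A, if e p = some θ then ind p else 0) =
      ∑ T ∈ (Finset.univ : Finset (A → Option Θ)).image (fam47 A), W T * G (V T) := by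
    intro G
    rw [Finset.sum_image fun a _ b _ h => fam_inj47 A h]
    refine Finset.sum_congr rfl fun e _ => ?_
    have h1 : W (fam47 A e) = ∏ p : A, (e p).elim 1 (fun θ => w θ p) := fam_prod47 A w e
    have h2 : V (fam47 A e) = fun θ => ∑ p : A, if e p = some θ then ind p else 0 := funext fun θ => fam_sum47 A ind e θ
    rw [h1, h2]
  -- the total weights
  have e3 : ∑ T ∈ P, W T = ∏ θ, ∏ p ∈ A, (1 + w θ p) := by
    rw [hP, hW, ← Finset.prod_univ_sum (fun _ : Θ => A.powerset) (fun θ S => ∏ p ∈ S, w θ p)]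
    exact Finset.prod_congr rfl fun θ _ => (Finset.prod_one_add A).symm
  have e4 : ∑ T ∈ (Finset.univ : Finset (A → Option Θ)).image (fam47 A), W T = ∏ p ∈ A, (1 + ∑ θ, w θ p) := by
    have h1 := e2 (fun _ => 1)
    simp only [mul_one] at h1
    rw [← h1]
    have h2 : ∏ p : A, ∑ o : Option Θ, o.elim 1 (fun θ => w θ p) = ∑ e : A → Option Θ, ∏ p : A, (e p).elim 1 (fun θ => w θ p) := by
      rw [Finset.prod_univ_sum]
      rw [Fintype.piFinset_univ]
    rw [← h2, ← Finset.prod_coe_sort A (fun p => 1 + ∑ θ, w θ p)]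
    refine Finset.prod_congr rfl fun p _ => ?_
    rw [Fintype.sum_option]
    rfl
  rw [e1, e2 F, ← Finset.sum_sdiff himg]
  have h5 : ∑ T ∈ (Finset.univ : Finset (A → Option Θ)).image (fam47 A), W T * F (V T) -
      (∑ T ∈ P \ (Finset.univ : Finset (A → Option Θ)).image (fam47 A), W T * F (V T) +
        ∑ T ∈ (Finset.univ : Finset (A → Option Θ)).image (fam47 A), W T * F (V T)) =
      -∑ T ∈ P \ (Finset.univ : Finset (A → Option Θ)).image (fam47 A), W T * F (V T) := by ring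
  rw [h5, abs_neg, ← e3, ← e4, ← Finset.sum_sdiff himg, add_sub_cancel_right, Finset.mul_sum]
  refine (Finset.abs_sum_le_sum_abs _ _).trans (Finset.sum_le_sum fun T hT => ?_)
  have h6 := hW0 T (Finset.mem_sdiff.1 hT).1
  rw [abs_mul, abs_of_nonneg h6, mul_comm M]
  exact mul_le_mul_of_nonneg_left (hF _) h6

/-- the difference of the total weights is small if all `p ∈ A` are large -/
theorem decouple_err {Θ : Type} [Fintype Θ] (A : Finset ℕ) (w : Θ → ℕ → ℝ) {c y Bd : ℝ} (hc : 0 ≤ c) (hy : 0 < y)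
    (hw : ∀ θ, ∀ p ∈ A, 0 ≤ w θ p) (hwc : ∀ θ, ∀ p ∈ A, w θ p ≤ c / p) (hp : ∀ p ∈ A, y < (p : ℝ)) (hB : ∑ p ∈ A, (1 : ℝ) / p ≤ Bd) :
    ∏ θ, ∏ p ∈ A, (1 + w θ p) - ∏ p ∈ A, (1 + ∑ θ, w θ p) ≤
      Real.exp (Fintype.card Θ * c * Bd) * ((Fintype.card Θ * c) ^ 2 * Bd) / y := by
  obtain ⟨m, hm⟩ : ∃ m : ℝ, m = Fintype.card Θ := ⟨_, rfl⟩
  have hm0 : 0 ≤ m := by
    rw [hm]
    positivity
  obtain ⟨S, hS⟩ : ∃ S : ℕ → ℝ, ∀ p, S p = ∑ θ, w θ p := ⟨_, fun _ => rfl⟩
  have hp0 : ∀ p ∈ A, (0 : ℝ) < p := fun p h => hy.trans (hp p h)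
  have hS0 : ∀ p ∈ A, 0 ≤ S p := fun p h => by
    rw [hS]
    exact Finset.sum_nonneg fun θ _ => hw θ p h
  have hS1 : ∀ p ∈ A, S p ≤ m * c * (1 / p) := by
    intro p h
    rw [hS]
    refine (Finset.sum_le_sum fun θ _ => hwc θ p h).trans (le_of_eq ?_)
    rw [Finset.sum_const, nsmul_eq_mul, Finset.card_univ, ← hm]
    ring
  have hsum : ∑ p ∈ A, S p ≤ m * c * Bd := by
    refine (Finset.sum_le_sum hS1).trans ?_
    rw [← Finset.mul_sum]
    exact mul_le_mul_of_nonneg_left hB (by positivity)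
  have hsq : ∑ p ∈ A, S p ^ 2 ≤ (m * c) ^ 2 * Bd / y := by
    have h1 : ∀ p ∈ A, S p ^ 2 ≤ (m * c) ^ 2 / y * (1 / p) := by
      intro p h
      have h2 := pow_le_pow_left₀ (hS0 p h) (hS1 p h) 2
      have h3 : (1 : ℝ) / p ≤ 1 / y := one_div_le_one_div_of_le hy (hp p h).le
      have h4 : (0 : ℝ) ≤ 1 / p := by
        have := hp0 p h
        positivity
      calc S p ^ 2 ≤ (m * c * (1 / p)) ^ 2 := h2
        _ = (m * c) ^ 2 * (1 / p) * (1 / p) := by ring
        _ ≤ (m * c) ^ 2 * (1 / y) * (1 / p) :=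
            mul_le_mul_of_nonneg_right (mul_le_mul_of_nonneg_left h3 (by positivity)) h4
        _ = _ := by ring
    refine (Finset.sum_le_sum h1).trans ?_
    rw [← Finset.mul_sum]
    calc (m * c) ^ 2 / y * ∑ p ∈ A, (1 : ℝ) / p ≤ (m * c) ^ 2 / y * Bd := mul_le_mul_of_nonneg_left hB (by positivity)
      _ = _ := by ring
  -- the larger product
  have h1 : ∏ θ, ∏ p ∈ A, (1 + w θ p) ≤ Real.exp (∑ p ∈ A, S p) := by
    rw [Finset.prod_comm, Real.exp_sum]
    refine Finset.prod_le_prod (fun p h => Finset.prod_nonneg fun θ _ => by linarith [hw θ p h]) fun p h => ?_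
    rw [hS, Real.exp_sum]
    refine Finset.prod_le_prod (fun θ _ => by linarith [hw θ p h]) fun θ _ => ?_
    have := Real.add_one_le_exp (w θ p)
    linarith
  -- the smaller product
  have h2 : Real.exp (∑ p ∈ A, S p) * Real.exp (-∑ p ∈ A, S p ^ 2) ≤ ∏ p ∈ A, (1 + ∑ θ, w θ p) := by
    rw [← Real.exp_add, ← sub_eq_add_neg, ← Finset.sum_sub_distrib, Real.exp_sum]
    refine Finset.prod_le_prod (fun p _ => (Real.exp_pos _).le) fun p h => ?_
    rw [← hS p]
    have hx := hS0 p h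
    -- `exp (x - x²) ≤ 1 + x`
    have h3 : S p - S p ^ 2 ≤ Real.log (1 + S p) := by
      have h4 : 1 - (1 + S p)⁻¹ ≤ Real.log (1 + S p) := Real.one_sub_inv_le_log_of_pos (by linarith)
      have h5 : S p - S p ^ 2 ≤ 1 - (1 + S p)⁻¹ := by
        have h6 : 1 - (1 + S p)⁻¹ = S p / (1 + S p) := by
          have : 1 + S p ≠ 0 := by linarith
          field_simp
          ring
        rw [h6, le_div_iff₀ (by linarith)]
        nlinarith [pow_nonneg hx 3]
      linarith
    calc Real.exp (S p - S p ^ 2) ≤ Real.exp (Real.log (1 + S p)) := Real.exp_le_exp.2 h3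
      _ = 1 + S p := Real.exp_log (by linarith)
  have h3 : 1 - ∑ p ∈ A, S p ^ 2 ≤ Real.exp (-∑ p ∈ A, S p ^ 2) := by
    have := Real.add_one_le_exp (-∑ p ∈ A, S p ^ 2)
    linarith
  have h4 : Real.exp (∑ p ∈ A, S p) * (1 - ∑ p ∈ A, S p ^ 2) ≤ ∏ p ∈ A, (1 + ∑ θ, w θ p) :=
    (mul_le_mul_of_nonneg_left h3 (Real.exp_pos _).le).trans h2
  have h5 : Real.exp (∑ p ∈ A, S p) ≤ Real.exp (m * c * Bd) := Real.exp_le_exp.2 hsum
  have h6 : 0 ≤ ∑ p ∈ A, S p ^ 2 := Finset.sum_nonneg fun p _ => sq_nonneg _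
  rw [← hm]
  calc ∏ θ, ∏ p ∈ A, (1 + w θ p) - ∏ p ∈ A, (1 + ∑ θ, w θ p)
      ≤ Real.exp (∑ p ∈ A, S p) * ∑ p ∈ A, S p ^ 2 := by linarith
    _ ≤ Real.exp (m * c * Bd) * ((m * c) ^ 2 * Bd / y) := mul_le_mul h5 hsq h6 (Real.exp_pos _).le
    _ = _ := by ring

end Pool.Agent.Helper47.HV
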